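import Pool.Agent.H14.TA.Stmts

/-!
# Module D2: short reduced words are nontrivial in the dihedral Artin group
-/

namespace TA

/-- exchange of the two letters -/
def d2_sw (l : List (Bool × ℤ)) : List (Bool × ℤ) := l.map fun s => (!s.1, s.2)

theorem d2_ev_sw (κ : ℕ) (l : List (Bool × ℤ)) :
    ev (dgen κ) (d2_sw l) = dswap κ (ev (dgen κ) l) := by
  induction l with
  | nil => simp [d2_sw]
  | cons s l ih =>
    have e : d2_sw (s :: l) = (!s.1, s.2) :: d2_sw l := rfl
    rw [e, ev_cons, ev_cons, ih, map_mul, map_zpow]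
    simp [dswap]

theorem d2_red_sw {l : List (Bool × ℤ)} (h : Red l) : Red (d2_sw l) := by
  refine ⟨?_, ?_⟩
  · unfold d2_sw
    rw [List.isChain_map]
    exact h.1.imp fun a b hab h' => hab (by simpa using h')
  · intro s hs
    unfold d2_sw at hs
    rw [List.mem_map] at hs
    obtain ⟨t, ht, rfl⟩ := hs
    exact h.2 t ht

theorem d2_step (hS : S_SIDED) (h1 : S_D1) (hdel : S_DEL) (κ : ℕ) (n : ℕ)
    (IH : ∀ l : List (Bool × ℤ), l.length < n → Red l → l ≠ [] → ev (dgen κ) l = 1 →
      κ ≤ l.length + 2)
    (e : ℤ) (l' : List (Bool × ℤ)) (hn : ((false, e) :: l').length = n)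
    (hred : Red ((false, e) :: l')) (hev : ev (dgen κ) ((false, e) :: l') = 1)
    (hκ : ((false, e) :: l').length + 2 < κ) : False := by
  have hκ2 : 2 ≤ κ := by omega
  obtain ⟨s, hs⟩ := hS κ (by omega) LFam.Va
  obtain ⟨-, hd2, -, -⟩ := hdel κ hκ2
  have hB : ∀ n : ℤ, dgen κ LFam.Va.letter ^ n ∈ LFam.Va.B κ → n = 0 := by
    rintro n hn
    obtain ⟨m, hm⟩ := Subgroup.mem_zpowers_iff.1 hn
    exact (hd2 m n hm).2
  have he : e ≠ 0 := hred.2 (false, e) (by simp)
  obtain ⟨k, hk⟩ : ∃ k : ℤ, (k = 0 ∨ k = -1) ∧ k ∈ step e := by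
    rcases lt_or_gt_of_ne he with h | h
    · refine ⟨-1, Or.inr rfl, ?_⟩
      simp only [step, Finset.mem_union, Finset.mem_Ico]
      omega
    · refine ⟨0, Or.inl rfl, ?_⟩
      simp only [step, Finset.mem_union, Finset.mem_Ico]
      omega
  set t : D κ := dgen κ false ^ k with ht
  have hc : Cr (dgen κ) LFam.Va.letter (LFam.Va.B κ) t (ev (dgen κ) []) (false, e) := by
    refine ⟨rfl, k, hk.2, ?_⟩
    have : t⁻¹ * ev (dgen κ) [] * dgen κ LFam.Va.letter ^ k = 1 := by
      simp [ht, LFam.letter]
    rw [this]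
    exact Subgroup.one_mem _
  have hex : ∃ m1 v m2, (false, e) :: l' = m1 ++ v :: m2 ∧
      Cr (dgen κ) LFam.Va.letter (LFam.Va.B κ) t (ev (dgen κ) m1) v ∧ m1.length ≠ 0 := by
    by_contra hno
    push Not at hno
    have := hs.eq_one_of_unique hB t ((false, e) :: l') [] (false, e) l' rfl hc
      (fun m1 v m2 h h' => by simpa using hno m1 v m2 h h')
    rw [hev, hs.one] at this
    exact zero_ne_one this
  obtain ⟨m1, v, m2, h2, ⟨hv1, i, hi, hvB⟩, h3⟩ := hex
  obtain ⟨m', rfl⟩ : ∃ m', m1 = (false, e) :: m' := by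
    cases m1 with
    | nil => exact absurd rfl h3
    | cons a m' =>
      rw [List.cons_append] at h2
      injection h2 with h4 h5
      exact ⟨m', by rw [h4]⟩
  rw [List.cons_append] at h2
  injection h2 with _ h2
  subst h2
  obtain ⟨m, hm⟩ := Subgroup.mem_zpowers_iff.1 hvB
  have hm' : ev (dgen κ) m' = dgen κ false ^ (-e + k) * del κ ^ m * dgen κ false ^ (-i) := by
    rw [hm, ht, ev_cons]
    simp only [LFam.letter]
    rw [zpow_add, zpow_neg, zpow_neg]
    group
  have hlen : (m' ++ v :: m2).length = m'.length + m2.length + 1 := by simp; omega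
  simp only [List.length_cons, hlen] at hn hκ
  have hred' : Red (m' ++ v :: m2) := hred.sub (List.suffix_cons _ _).isInfix
  have hredm : Red m' := hred'.left
  by_cases hm0 : m = 0
  · subst hm0
    have hm'' : ev (dgen κ) m' = dgen κ false ^ (-e + k - i) := by
      rw [hm', zpow_zero, mul_one, ← zpow_add, sub_eq_add_neg]
    have hne : m' ≠ [] := by
      rintro rfl
      have := hred.1
      rw [List.nil_append, List.isChain_cons_cons] at this
      exact this.1 hv1.symm
    by_cases hz : -e + k - i = 0
    · rw [hz, zpow_zero] at hm''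
      have := IH m' (by omega) hredm hne hm''
      omega
    · have hr : Red (m' ++ [(false, -(-e + k - i))]) := by
        rw [red_append]
        refine ⟨hredm, red_singleton.2 (fun h => hz (neg_eq_zero.1 h)), ?_⟩
        intro a ha b hb
        have h6 := (red_append.1 hred').2.2 a ha v (by simp)
        simp only [List.head?_cons, Option.mem_def, Option.some.injEq] at hb
        subst hb
        simp only [LFam.letter] at hv1
        rw [hv1] at h6
        exact h6
      have := IH (m' ++ [(false, -(-e + k - i))]) (by simp; omega) hr (by simp) (by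
        rw [ev_append, hm'', ev_cons, ev_nil, mul_one, ← zpow_add, add_neg_cancel, zpow_zero])
      simp only [List.length_append, List.length_cons, List.length_nil] at this
      omega
  · have := h1 κ m (-e + k) (-i) hm0 m' hm'
    omega

theorem d2_of (hS : S_SIDED) (h1 : S_D1) (hdel : S_DEL) : S_D2 := by
  intro κ _ l
  induction hn : l.length using Nat.strong_induction_on generalizing l with
  | _ n IH =>
    intro hred hne hev
    by_contra hκ
    push Not at hκ
    have IH' : ∀ l : List (Bool × ℤ), l.length < n → Red l → l ≠ [] → ev (dgen κ) l = 1 →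
        κ ≤ l.length + 2 := fun l hl h1 h2 h3 => IH _ hl l rfl h1 h2 h3
    obtain ⟨⟨x, e⟩, l', rfl⟩ := List.exists_cons_of_ne_nil hne
    cases x with
    | false => exact d2_step hS h1 hdel κ n IH' e l' hn hred hev (by omega)
    | true =>
      have h5 : d2_sw ((true, e) :: l') = (false, e) :: d2_sw l' := rfl
      have h6 : (d2_sw l').length = l'.length := by simp [d2_sw]
      refine d2_step hS h1 hdel κ n IH' e (d2_sw l') ?_ ?_ ?_ ?_
      · simp only [List.length_cons] at hn ⊢
        omega
      · rw [← h5]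
        exact d2_red_sw hred
      · rw [← h5, d2_ev_sw, hev, map_one]
      · simp only [List.length_cons] at hn ⊢
        omega

end TA
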