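import Pool.Agent.H14.TA.Stmts

/-!
# Module PARTS: combinatorics of maximal two-letter subwords
-/

namespace TA

theorem parts_third (a b : Fin 3) : ∃ z, a ≠ z ∧ b ≠ z := by
  fin_cases a <;> fin_cases b <;> decide

theorem parts1 (w l u r : List (Fin 3 × ℤ)) (z : Fin 3) (hw : w = l ++ u ++ r)
    (h2 : 2 ≤ u.length) (hu : ∀ s ∈ u, s.1 ≠ z) :
    ∃ w1 v w2 l' r', Part w w1 v w2 z ∧ l = w1 ++ l' ∧ r = r' ++ w2 ∧ v = l' ++ u ++ r' := by
  classical
  set p : Fin 3 × ℤ → Bool := fun s => decide (s.1 ≠ z) with hp
  have hr : r.takeWhile p ++ r.dropWhile p = r := List.takeWhile_append_dropWhile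
  have hl : (l.reverse.dropWhile p).reverse ++ (l.reverse.takeWhile p).reverse = l := by
    rw [← List.reverse_append, List.takeWhile_append_dropWhile, List.reverse_reverse]
  refine ⟨(l.reverse.dropWhile p).reverse, (l.reverse.takeWhile p).reverse ++ u ++ r.takeWhile p,
    r.dropWhile p, (l.reverse.takeWhile p).reverse, r.takeWhile p, ⟨?_, ?_, ?_, ?_, ?_⟩,
    hl.symm, hr.symm, rfl⟩
  · rw [hw]
    conv_lhs => rw [← hl, ← hr]
    simp only [List.append_assoc]
  · intro s hs
    rcases List.mem_append.1 hs with hs | hs
    · rcases List.mem_append.1 hs with hs | hs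
      · have := List.mem_takeWhile_imp (List.mem_reverse.1 hs)
        simpa [hp] using this
      · exact hu s hs
    · have := List.mem_takeWhile_imp hs
      simpa [hp] using this
  · simp only [List.length_append]
    omega
  · intro s hs
    rw [List.getLast?_reverse] at hs
    have := List.head?_dropWhile_not p l.reverse
    rw [Option.mem_def] at hs
    rw [hs] at this
    simpa [hp] using this
  · intro s hs
    have := List.head?_dropWhile_not p r
    rw [Option.mem_def] at hs
    rw [hs] at this
    simpa [hp] using this

theorem parts_miss {w w1 v w2 : List (Fin 3 × ℤ)} {z : Fin 3} (h : Part w w1 v w2 z) {k : ℕ}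
    (h1 : w1.length ≤ k) (h2 : k < w1.length + v.length) {s : Fin 3 × ℤ} (hs : w[k]? = some s) :
    s.1 ≠ z := by
  apply h.miss
  rw [h.eq, List.append_assoc, List.getElem?_append_right h1,
    List.getElem?_append_left (by omega)] at hs
  exact List.mem_of_getElem? hs

theorem parts_left {w w1 v w2 : List (Fin 3 × ℤ)} {z : Fin 3} (h : Part w w1 v w2 z)
    (h0 : 0 < w1.length) : ∃ s, w[w1.length - 1]? = some s ∧ s.1 = z := by
  have h1 : w1.getLast? = w1[w1.length - 1]? := List.getLast?_eq_getElem?
  have h2 : w1[w1.length - 1]? = some (w1[w1.length - 1]'(by omega)) :=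
    List.getElem?_eq_getElem (by omega)
  refine ⟨w1[w1.length - 1]'(by omega), ?_, ?_⟩
  · rw [h.eq, List.append_assoc, List.getElem?_append_left (by omega), h2]
  · exact h.left _ (by rw [h1, h2]; rfl)

theorem parts_right {w w1 v w2 : List (Fin 3 × ℤ)} {z : Fin 3} (h : Part w w1 v w2 z)
    (h0 : w1.length + v.length < w.length) :
    ∃ s, w[w1.length + v.length]? = some s ∧ s.1 = z := by
  have hlen : w.length = w1.length + v.length + w2.length := by
    rw [h.eq]; simp [add_assoc]
  have h00 : 0 < w2.length := by omega
  clear hlen h0
  have h1 : w2.head? = w2[0]? := List.head?_eq_getElem?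
  have h2 : w2[0]? = some (w2[0]'h00) := List.getElem?_eq_getElem h00
  refine ⟨w2[0]'h00, ?_, ?_⟩
  · rw [h.eq, List.getElem?_append_right (by simp)]
    simp only [List.length_append, Nat.sub_self]
    rw [h2]
  · exact h.right _ (by rw [h1, h2]; rfl)

theorem parts_eq {w w1 v w2 w1' v' w2' : List (Fin 3 × ℤ)} {z : Fin 3}
    (h : Part w w1 v w2 z) (h' : Part w w1' v' w2' z) {j : ℕ} (h1 : w1.length ≤ j)
    (h2 : j < w1.length + v.length) (h3 : w1'.length ≤ j) (h4 : j < w1'.length + v'.length) :
    w1 = w1' ∧ v = v' := by
  have hlen : w.length = w1.length + v.length + w2.length := by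
    rw [h.eq]; simp [add_assoc]
  have hlen' : w.length = w1'.length + v'.length + w2'.length := by
    rw [h'.eq]; simp [add_assoc]
  have e1 : w1.length = w1'.length := by
    rcases lt_trichotomy w1.length w1'.length with hlt | heq | hgt
    · obtain ⟨s, hs, hz⟩ := parts_left h' (by omega)
      exact absurd hz (parts_miss h (by omega) (by omega) hs)
    · exact heq
    · obtain ⟨s, hs, hz⟩ := parts_left h (by omega)
      exact absurd hz (parts_miss h' (by omega) (by omega) hs)
  have e2 : w1.length + v.length = w1'.length + v'.length := by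
    rcases lt_trichotomy (w1.length + v.length) (w1'.length + v'.length) with hlt | heq | hgt
    · obtain ⟨s, hs, hz⟩ := parts_right h (by omega)
      exact absurd hz (parts_miss h' (by omega) (by omega) hs)
    · exact heq
    · obtain ⟨s, hs, hz⟩ := parts_right h' (by omega)
      exact absurd hz (parts_miss h (by omega) (by omega) hs)
  have e3 := h.eq.symm.trans h'.eq
  rw [List.append_assoc, List.append_assoc] at e3
  obtain ⟨a1, a2⟩ := List.append_inj e3 e1
  obtain ⟨a3, -⟩ := List.append_inj a2 (by omega)
  exact ⟨a1, a3⟩

theorem parts : S_PARTS := by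
  refine ⟨parts1, ?_, ?_⟩
  · intro w _ h2 j hj
    have key : ∀ i, i + 1 < w.length → i ≤ j → j ≤ i + 1 →
        ∃ w1 v w2 z, Part w w1 v w2 z ∧ w1.length ≤ j ∧ j < w1.length + v.length := by
      intro i hi hij hji
      obtain ⟨z, hz1, hz2⟩ := parts_third (w[i]'(by omega)).1 (w[i + 1]'hi).1
      have e : w = w.take i ++ [w[i]'(by omega), w[i + 1]'hi] ++ w.drop (i + 2) := by
        conv_lhs => rw [← List.take_append_drop i w]
        rw [List.drop_eq_getElem_cons (by omega), List.drop_eq_getElem_cons (by omega)]
        simp
      obtain ⟨w1, v, w2, l', r', hP, e1, e2, e3⟩ := parts1 w _ _ _ z e (by simp) (by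
        intro s hs
        simp only [List.mem_cons, List.not_mem_nil, or_false] at hs
        rcases hs with rfl | rfl
        · exact hz1
        · exact hz2)
      refine ⟨w1, v, w2, z, hP, ?_, ?_⟩
      · have := congrArg List.length e1
        simp only [List.length_take, List.length_append] at this
        omega
      · have h5 := congrArg List.length e1
        have h6 := congrArg List.length e3
        simp only [List.length_take, List.length_append, List.length_cons,
          List.length_nil] at h5 h6
        omega
    by_cases h : j + 1 < w.length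
    · exact key j h le_rfl (by omega)
    · exact key (j - 1) (by omega) (by omega) (by omega)
  · intro w w1 v w2 w1' v' w2' z z' hr h h' j h1 h2 h3 h4
    have hlen : w.length = w1.length + v.length + w2.length := by
      rw [h.eq]; simp [add_assoc]
    have ha : w[j - 1]? = some (w[j - 1]'(by omega)) := List.getElem?_eq_getElem (by omega)
    have hb : w[j]? = some (w[j]'(by omega)) := List.getElem?_eq_getElem (by omega)
    have n1 := parts_miss h (by omega) (by omega) ha
    have n2 := parts_miss h (by omega) (by omega) hb
    have n3 := parts_miss h' (by omega) (by omega) ha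
    have n4 := parts_miss h' (by omega) (by omega) hb
    have hab : (w[j - 1]'(by omega)).1 ≠ (w[j]'(by omega)).1 := by
      have := List.isChain_iff_getElem.1 hr.1 (j - 1) (by omega)
      simpa [Nat.sub_add_cancel (show 1 ≤ j by omega)] using this
    have hzz : z = z' := by
      generalize (w[j - 1]'(by omega)).1 = a at n1 n3 hab
      generalize (w[j]'(by omega)).1 = b at n2 n4 hab
      have := Fin.val_ne_of_ne n1
      have := Fin.val_ne_of_ne n2
      have := Fin.val_ne_of_ne n3
      have := Fin.val_ne_of_ne n4
      have := Fin.val_ne_of_ne hab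
      have := a.isLt
      have := b.isLt
      have := z.isLt
      have := z'.isLt
      apply Fin.ext
      omega
    subst hzz
    exact parts_eq h h' (j := j) (by omega) (by omega) (by omega) (by omega)

end TA
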