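import Pool.Agent.H14.TA.Stmts

/-!
# Module RETL: retraction of syllable lists
-/

namespace TA

/-- the list of the retraction -/
def retl_r (x y : Fin 3) (l : List (Fin 3 × ℤ)) : List (Bool × ℤ) :=
  l.filterMap fun s => if s.1 = x then some (false, s.2) else
    if s.1 = y then some (true, s.2) else none

/-- the list of the inclusion -/
def retl_i (x y : Fin 3) (l : List (Bool × ℤ)) : List (Fin 3 × ℤ) :=
  l.map fun s => (if s.1 then y else x, s.2)

theorem retl_ev_i (κ : ℕ) (x y : Fin 3) (l : List (Bool × ℤ)) :
    ev (gen κ) (retl_i x y l) = iota κ x y (ev (dgen κ) l) := by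
  induction l with
  | nil => simp [retl_i]
  | cons s l ih =>
    have e : retl_i x y (s :: l) = (if s.1 then y else x, s.2) :: retl_i x y l := rfl
    rw [e, ev_cons, ev_cons, ih, map_mul, map_zpow]
    obtain ⟨a, b⟩ := s
    cases a <;> simp

theorem retl_ev_r (κ : ℕ) (x y : Fin 3) (l : List (Fin 3 × ℤ)) :
    ev (dgen κ) (retl_r x y l) = ret κ x y (ev (gen κ) l) := by
  induction l with
  | nil => simp [retl_r]
  | cons s l ih =>
    rw [ev_cons, map_mul, ← ih, map_zpow, ret_gen]
    unfold retl_r
    rw [List.filterMap_cons]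
    by_cases h1 : s.1 = x
    · simp [h1]
    · by_cases h2 : s.1 = y
      · rw [if_neg h1, if_neg h1, if_pos h2, if_pos h2]
        simp
      · rw [if_neg h1, if_neg h1, if_neg h2, if_neg h2]
        simp

theorem retl_len (x y : Fin 3) (l : List (Fin 3 × ℤ)) : (retl_r x y l).length ≤ l.length :=
  List.length_filterMap_le _ _

theorem retl_len_lt {x y : Fin 3} {l : List (Fin 3 × ℤ)} {s : Fin 3 × ℤ} (hs : s ∈ l)
    (h1 : s.1 ≠ x) (h2 : s.1 ≠ y) : (retl_r x y l).length < l.length := by
  obtain ⟨p, q, rfl⟩ := List.append_of_mem hs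
  have e : retl_r x y (p ++ s :: q) = retl_r x y p ++ retl_r x y q := by
    unfold retl_r
    rw [List.filterMap_append, List.filterMap_cons]
    simp [h1, h2]
  rw [e]
  have := retl_len x y p
  have := retl_len x y q
  simp only [List.length_append, List.length_cons]
  omega

theorem retl_exists_ev {I Γ : Type*} [Group Γ] (γ : I → Γ)
    (h : Subgroup.closure (Set.range γ) = ⊤) (g : Γ) : ∃ l : List (I × ℤ), ev γ l = g := by
  have hg : g ∈ Subgroup.closure (Set.range γ) := by rw [h]; trivial
  induction hg using Subgroup.closure_induction with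
  | mem g hg =>
    obtain ⟨y, rfl⟩ := hg
    exact ⟨[(y, 1)], by simp⟩
  | one => exact ⟨[], rfl⟩
  | mul g k _ _ hg hk =>
    obtain ⟨l, rfl⟩ := hg
    obtain ⟨m, rfl⟩ := hk
    exact ⟨l ++ m, ev_append _ _ _⟩
  | inv g _ hg =>
    obtain ⟨l, rfl⟩ := hg
    exact ⟨linv l, ev_linv _ _⟩

theorem retl : S_RETL := by
  intro κ x y hxy
  have h1 : ∀ (l : List (Fin 3 × ℤ)) (α : D κ), ev (gen κ) l = iota κ x y α →
      ev (dgen κ) (retl_r x y l) = α := by
    intro l α h
    rw [retl_ev_r, h, ret_iota κ hxy]
  refine ⟨fun l α h => ⟨retl_r x y l, h1 l α h, retl_len x y l⟩, ?_, ?_, ?_⟩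
  · intro l hl
    refine ⟨l.map fun s => (decide (s.1 = y), s.2), by simp, ?_, ?_⟩
    · intro hr
      refine ⟨?_, ?_⟩
      · rw [List.isChain_map]
        refine hr.1.imp_of_mem_imp ?_
        intro a b ha hb hab
        have ha' := hl a ha
        have hb' := hl b hb
        simp only [ne_eq, decide_eq_decide]
        intro h
        rcases ha' with ha' | ha' <;> rcases hb' with hb' | hb'
        · exact hab (ha'.trans hb'.symm)
        · exact hxy (ha'.symm.trans (h.2 hb'))
        · exact hxy (hb'.symm.trans (h.1 ha'))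
        · exact hab (ha'.trans hb'.symm)
      · intro s hs
        rw [List.mem_map] at hs
        obtain ⟨t, ht, rfl⟩ := hs
        exact hr.2 t ht
    · rw [← retl_ev_i]
      congr 1
      unfold retl_i
      rw [List.map_map]
      conv_lhs => rw [← List.map_id l]
      apply List.map_congr_left
      intro s hs
      rcases hl s hs with h | h
      · have : ¬ s.1 = y := fun h' => hxy (h.symm.trans h')
        simp only [Function.comp, this, decide_false, Bool.false_eq_true, if_false, ← h, id]
      · simp only [Function.comp, h, decide_true, if_true, id]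
        rw [← h]
  · intro α
    obtain ⟨l0, h0⟩ := retl_exists_ev (dgen κ) (D_closure κ) α
    obtain ⟨l1, h2, h3, -⟩ := exists_geo (dgen κ) l0
    refine ⟨retl_i x y l1, ?_, ?_, ?_⟩
    · intro l' hl'
      rw [retl_ev_i] at hl'
      have h4 := h3 _ (h1 l' _ hl')
      have h5 := retl_len x y l'
      have h6 : (retl_i x y l1).length = l1.length := by simp [retl_i]
      omega
    · intro s hs
      unfold retl_i at hs
      rw [List.mem_map] at hs
      obtain ⟨t, ht, rfl⟩ := hs
      cases t.1
      · left; rfl
      · right; rfl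
    · rw [retl_ev_i, h2, h0]
  · intro l α hg hl s hs
    by_contra hcon
    push Not at hcon
    have h2 := h1 l α hl
    have h3 := retl_len_lt hs hcon.1 hcon.2
    have h4 := hg (retl_i x y (retl_r x y l)) (by rw [retl_ev_i, h2, hl])
    have h6 : (retl_i x y (retl_r x y l)).length = (retl_r x y l).length := by simp [retl_i]
    omega

end TA
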