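import Pool.Agent.H14.TA.Stmts

/-!
# Modules SYL1 and SYL2: the syllable geometry of the free product
-/

namespace TA

theorem syl_getLast_linv {I : Type*} (l : List (I × ℤ)) :
    (linv l).getLast? = l.head?.map (fun s => (s.1, -s.2)) := by
  simp [linv, List.getLast?_reverse, List.head?_map]

theorem syl_btw_iff {x m y : P} : Btw len x m y ↔
    ∀ s ∈ (nf (m⁻¹ * x)).head?, ∀ t ∈ (nf (m⁻¹ * y)).head?, s.1 ≠ t.1 := by
  unfold Btw
  have e : x⁻¹ * y = (x⁻¹ * m) * (m⁻¹ * y) := by group
  have e2 : x⁻¹ * m = (m⁻¹ * x)⁻¹ := by group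
  rw [e, eq_comm, len_mul_iff, e2, nf_inv, syl_getLast_linv]
  constructor
  · intro h s hs t ht
    exact h (s.1, -s.2) (by
      rw [Option.mem_def] at hs ⊢
      rw [hs]
      rfl) t ht
  · intro h s hs t ht
    rw [Option.mem_def, Option.map_eq_some_iff] at hs
    obtain ⟨s', hs', rfl⟩ := hs
    exact h s' hs' t ht

theorem syl1 : S_SYL1 := by
  refine ⟨?_, ?_, ?_, ?_⟩
  · intro g
    rw [len, List.length_eq_zero_iff, nf_eq_nil]
  · intro g
    rw [len, nf_inv, length_linv]
    rfl
  · intro g h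
    have := len_le_of_ev (g := g * h) (l := nf g ++ nf h) (by rw [ev_append, ev_nf, ev_nf])
    simpa [len] using this
  · intro x m y p h
    rw [syl_btw_iff] at h
    rw [syl_btw_iff, syl_btw_iff]
    cases hx : (nf (m⁻¹ * x)).head? with
    | none => left; intro s hs; simp at hs
    | some s =>
      cases hy : (nf (m⁻¹ * y)).head? with
      | none => right; intro _ _ t ht; simp at ht
      | some t =>
        cases hp : (nf (m⁻¹ * p)).head? with
        | none => left; intro _ _ t ht; simp at ht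
        | some r =>
          have hst := h s (by rw [hx]; rfl) t (by rw [hy]; rfl)
          by_cases hr : s.1 = r.1
          · right
            intro a ha b hb
            simp only [Option.mem_def, Option.some.injEq] at ha hb
            subst ha; subst hb
            rw [← hr]
            exact hst
          · left
            intro a ha b hb
            simp only [Option.mem_def, Option.some.injEq] at ha hb
            subst ha; subst hb
            exact hr

theorem syl_head_ne {z : Fin 3} {g : P} (hg : g ∈ Pz z) : ∀ s ∈ (nf g).head?, s.1 ≠ z := by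
  intro s hs
  exact mem_Pz.1 hg s (List.mem_of_mem_head? hs)

theorem syl_gate (Y : Fin 3 × P) (x : P) : ∃ q, IsGate len Pz Y x q := by
  classical
  set a := Y.2⁻¹ * x with ha
  set u := (nf a).takeWhile (fun s => decide (s.1 ≠ Y.1)) with hu
  set v := (nf a).dropWhile (fun s => decide (s.1 ≠ Y.1)) with hv
  have huv : u ++ v = nf a := List.takeWhile_append_dropWhile
  have hred : Red (u ++ v) := by rw [huv]; exact nf_red a
  have hum : ev pg u ∈ Pz Y.1 := ev_mem_Pz fun s hs => by
    have := List.mem_takeWhile_imp hs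
    simpa using this
  have hev : (ev pg u)⁻¹ * a = ev pg v := by
    rw [← ev_nf a, ← huv, ev_append, inv_mul_cancel_left]
  refine ⟨Y.2 * ev pg u, ?_, ?_⟩
  · unfold InR
    rwa [inv_mul_cancel_left]
  · intro y hy
    rw [syl_btw_iff]
    have e1 : (Y.2 * ev pg u)⁻¹ * x = ev pg v := by
      rw [mul_inv_rev, mul_assoc, ← ha, hev]
    have e2 : (Y.2 * ev pg u)⁻¹ * y = (ev pg u)⁻¹ * (Y.2⁻¹ * y) := by
      rw [mul_inv_rev, mul_assoc]
    rw [e1, e2, nf_ev hred.right]
    intro s hs t ht
    have h1 : t.1 ≠ Y.1 := syl_head_ne ((Pz Y.1).mul_mem ((Pz Y.1).inv_mem hum) hy) t ht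
    have h2 : s.1 = Y.1 := by
      have := List.head?_dropWhile_not (fun s => decide (s.1 ≠ Y.1)) (nf a)
      rw [← hv] at this
      rw [Option.mem_def] at hs
      rw [hs] at this
      simpa using this
    rw [h2]
    exact h1.symm

theorem syl2 (h1 : S_SYL1) : S_SYL2 := by
  obtain ⟨ha, hb, hc, hd⟩ := h1
  refine ⟨ha, hb, hc, hd, ?_, syl_gate, ?_, ?_, ?_⟩
  · intro Y x m y hx hy hm
    unfold InR at *
    unfold Btw at hm
    have e : x⁻¹ * y = (x⁻¹ * m) * (m⁻¹ * y) := by group
    have hn := nf_mul_of_len (g := x⁻¹ * m) (h := m⁻¹ * y) (by rw [← e, ← hm])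
    rw [← e] at hn
    have hxy : x⁻¹ * y ∈ Pz Y.1 := by
      have := (Pz Y.1).mul_mem ((Pz Y.1).inv_mem hx) hy
      have e3 : (Y.2⁻¹ * x)⁻¹ * (Y.2⁻¹ * y) = x⁻¹ * y := by group
      rwa [e3] at this
    have hxm : x⁻¹ * m ∈ Pz Y.1 := by
      rw [mem_Pz] at hxy ⊢
      intro s hs
      apply hxy
      rw [hn]
      exact List.mem_append_left _ hs
    have := (Pz Y.1).mul_mem hx hxm
    have e3 : (Y.2⁻¹ * x) * (x⁻¹ * m) = Y.2⁻¹ * m := by group
    rwa [e3] at this
  · intro Y x x' q q' hq hq' hne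
    have b1 := hq.2 q' hq'.1
    have b2 := hq'.2 q hq.1
    unfold Btw at b1 b2
    have e1 : x⁻¹ * q' = (x⁻¹ * q) * (q⁻¹ * q') := by group
    have e2 : q⁻¹ * x' = (q⁻¹ * q') * (q'⁻¹ * x') := by group
    have n1 : nf (x⁻¹ * q') = nf (x⁻¹ * q) ++ nf (q⁻¹ * q') := by
      rw [e1]
      exact nf_mul_of_len (by rw [← e1, ← b1])
    have j2 : ∀ s ∈ (nf (q⁻¹ * q')).getLast?, ∀ t ∈ (nf (q'⁻¹ * x')).head?, s.1 ≠ t.1 := by
      rw [← len_mul_iff, ← e2]
      have i1 : x'⁻¹ * q' = (q'⁻¹ * x')⁻¹ := by group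
      have i2 : q'⁻¹ * q = (q⁻¹ * q')⁻¹ := by group
      have i3 : x'⁻¹ * q = (q⁻¹ * x')⁻¹ := by group
      rw [i1, i2, i3, hb, hb, hb] at b2
      omega
    have hnn : nf (q⁻¹ * q') ≠ [] := by
      intro h
      rw [nf_eq_nil] at h
      exact hne (inv_mul_eq_one.1 h)
    have e3 : x⁻¹ * x' = (x⁻¹ * q') * (q'⁻¹ * x') := by group
    have n2 : nf (x⁻¹ * x') = nf (x⁻¹ * q') ++ nf (q'⁻¹ * x') := by
      rw [e3]
      apply nf_mul_of_junction
      rw [n1, List.getLast?_append_of_ne_nil _ hnn]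
      exact j2
    simp only [len]
    rw [n2, n1]
    simp [add_assoc]
  · intro Y Y' hne x y hx hy hx' hy'
    unfold InR at *
    have hxy : x⁻¹ * y ∈ Pz Y.1 := by
      have := (Pz Y.1).mul_mem ((Pz Y.1).inv_mem hx) hy
      have e3 : (Y.2⁻¹ * x)⁻¹ * (Y.2⁻¹ * y) = x⁻¹ * y := by group
      rwa [e3] at this
    have hxy' : x⁻¹ * y ∈ Pz Y'.1 := by
      have := (Pz Y'.1).mul_mem ((Pz Y'.1).inv_mem hx') hy'
      have e3 : (Y'.2⁻¹ * x)⁻¹ * (Y'.2⁻¹ * y) = x⁻¹ * y := by group
      rwa [e3] at this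
    have hzz : Y.1 ≠ Y'.1 := by
      intro h
      apply hne
      refine ⟨h, ?_⟩
      rw [← h] at hx'
      have := (Pz Y.1).mul_mem hx ((Pz Y.1).inv_mem hx')
      have e3 : (Y.2⁻¹ * x) * (Y'.2⁻¹ * x)⁻¹ = Y.2⁻¹ * Y'.2 := by group
      rwa [e3] at this
    rw [mem_Pz] at hxy hxy'
    have hred := nf_red (x⁻¹ * y)
    unfold len
    match hl : nf (x⁻¹ * y) with
    | [] => simp
    | [s] => simp
    | s :: t :: l =>
      exfalso
      rw [hl] at hxy hxy' hred
      have h1 : s.1 ≠ t.1 := by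
        have := hred.1
        rw [List.isChain_cons_cons] at this
        exact this.1
      have hs := hxy s (by simp)
      have ht := hxy t (by simp)
      have hs' := hxy' s (by simp)
      have ht' := hxy' t (by simp)
      have := Fin.val_ne_of_ne h1
      have := Fin.val_ne_of_ne hs
      have := Fin.val_ne_of_ne ht
      have := Fin.val_ne_of_ne hs'
      have := Fin.val_ne_of_ne ht'
      have := Fin.val_ne_of_ne hzz
      have := s.1.isLt
      have := t.1.isLt
      have := Y.1.isLt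
      have := Y'.1.isLt
      omega
  · intro g
    rw [← ev_nf g]
    have : ∀ l : List (Fin 3 × ℤ), ev pg l ∈ Subgroup.closure (⋃ z, (Pz z : Set P)) := by
      intro l
      induction l with
      | nil => exact Subgroup.one_mem _
      | cons s l ih =>
        rw [ev_cons]
        refine Subgroup.mul_mem _ (Subgroup.zpow_mem _ (Subgroup.subset_closure ?_) _) ih
        rw [Set.mem_iUnion]
        refine ⟨s.1 + 1, Subgroup.subset_closure ⟨s.1, ?_, rfl⟩⟩
        generalize s.1 = i
        fin_cases i <;> decide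
    exact this _

end TA
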