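import Pool.Agent.H14.TA.Stmts

/-!
# Module TL2: two-letter subwords of the word in the core lemma are nearly geodesic
-/

namespace TA

/-- `u` is geodesic up to four syllables at the ends -/
def tl2_NG (κ : ℕ) (u : List (Fin 3 × ℤ)) : Prop :=
  ∃ u1 u' u2, u = u1 ++ u' ++ u2 ∧ u1.length + u2.length ≤ 4 ∧ Geo (gen κ) u'

theorem tl2_geo_nil (κ : ℕ) : Geo (gen κ) [] := fun _ _ => Nat.zero_le _

theorem tl2_pre {u L : List (Fin 3 × ℤ)} (hu : u <+: L) {k : ℕ} {s : Fin 3 × ℤ}
    (hs : L[k]? = some s) (hz : ∀ t ∈ u, t.1 ≠ s.1) : u.length ≤ k := by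
  by_contra h
  push Not at h
  obtain ⟨r, rfl⟩ := hu
  rw [List.getElem?_append_left h] at hs
  exact hz s (List.mem_of_getElem? hs) rfl

theorem tl2_head {κ : ℕ} {x y : Fin 3} {l : List (Fin 3 × ℤ)} (hb : Blk κ x y l) :
    ∃ s l', l = s :: l' ∧ s.1 = y := by
  obtain ⟨s, hs, hy⟩ := hb.2.2.1
  cases l with
  | nil => simp at hs
  | cons a l' =>
    simp only [List.head?_cons, Option.mem_def, Option.some.injEq] at hs
    exact ⟨a, l', rfl, by rw [hs]; exact hy⟩

theorem tl2_second {κ : ℕ} {x y : Fin 3} {s t : Fin 3 × ℤ} {l : List (Fin 3 × ℤ)}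
    (hb : Blk κ x y (s :: t :: l)) : t.1 = x := by
  have h1 : s.1 = y := by
    obtain ⟨s', l', h, hs'⟩ := tl2_head hb
    injection h with h _
    rw [h]; exact hs'
  have h2 := hb.1.red.1
  rw [List.isChain_cons_cons] at h2
  rcases hb.2.1 t (by simp) with h | h
  · exact h
  · exact absurd (h1.trans h.symm) h2.1

theorem tl2_p2a {κ : ℕ} {x y : Fin 3} {l Z u : List (Fin 3 × ℤ)} (hb : Blk κ x y l)
    (hl : 2 ≤ l.length) (hu : u <+: l ++ Z) (hz : ∀ s ∈ u, s.1 ≠ x) : u.length ≤ 1 := by
  match l, hb, hl, hu with
  | s :: t :: l, hb, _, hu =>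
    have ht := tl2_second hb
    exact tl2_pre hu (k := 1) (s := t) (by simp) (by rw [ht]; exact hz)

theorem tl2_p1 {κ : ℕ} {x : Fin 3} {lg : Bool → Prop} {i : Bool} {Y u : List (Fin 3 × ℤ)}
    (hT : Tail κ x lg i Y) (hu : u <+: Y) (hz : ∀ s ∈ u, s.1 ≠ yy x (!i)) : u.length ≤ 1 := by
  cases hT with
  | nil =>
    have := hu.length_le
    simp at this
    simp [this]
  | pow _ e _ =>
    have := hu.length_le
    simpa using this
  | blk _ l Y' hb _ _ =>
    obtain ⟨s, l', rfl, hs⟩ := tl2_head hb
    have := tl2_pre hu (k := 0) (s := s) (by simp) (by rw [hs]; exact hz)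
    omega
  | pblk _ e l Y' _ hb _ _ =>
    obtain ⟨s, l', rfl, hs⟩ := tl2_head hb
    exact tl2_pre hu (k := 1) (s := s) (by simp) (by rw [hs]; exact hz)

theorem tl2_p2b {κ : ℕ} {x : Fin 3} {lg : Bool → Prop} {j : Bool} {Y u : List (Fin 3 × ℤ)}
    (hlg : lg (!j)) (hT : Tail κ x lg j Y) (hu : u <+: Y) (hz : ∀ s ∈ u, s.1 ≠ x) :
    u.length ≤ 1 := by
  cases hT with
  | nil =>
    have := hu.length_le
    simp at this
    simp [this]
  | pow _ e _ =>
    have := hu.length_le
    simpa using this
  | blk _ l Y' hb hl _ => exact tl2_p2a hb (hl hlg) hu hz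
  | pblk _ e l Y' _ _ _ _ =>
    have := tl2_pre hu (k := 0) (s := (x, e)) (by simp) hz
    omega

theorem tl2_p2 {κ : ℕ} {x : Fin 3} {lg : Bool → Prop} (hlg : lg false ∨ lg true) {i : Bool}
    {Y u : List (Fin 3 × ℤ)} (hT : Tail κ x lg i Y) (hu : u <+: Y) (hz : ∀ s ∈ u, s.1 ≠ x) :
    u.length ≤ 2 := by
  cases hT with
  | nil =>
    have := hu.length_le
    simp at this
    simp [this]
  | pow _ e _ =>
    have := hu.length_le
    simp at this
    omega
  | blk _ l Y' hb hl hT' =>
    by_cases h2 : 2 ≤ l.length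
    · have := tl2_p2a hb h2 hu hz
      omega
    · have hn : ¬ lg (!i) := fun h => h2 (hl h)
      have hi : lg (!(!i)) := by
        rw [Bool.not_not]
        cases i
        · rcases hlg with h | h
          · exact h
          · exact absurd h hn
        · rcases hlg with h | h
          · exact absurd h hn
          · exact h
      obtain ⟨s, l', rfl, hs⟩ := tl2_head hb
      have hl' : l' = [] := by
        cases l' with
        | nil => rfl
        | cons a l' => simp at h2
      subst hl'
      rw [List.cons_append, List.nil_append, List.prefix_cons_iff] at hu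
      rcases hu with rfl | ⟨u', rfl, hu'⟩
      · simp
      · have := tl2_p2b hi hT' hu' (fun t ht => hz t (by simp [ht]))
        simp only [List.length_cons]
        omega
  | pblk _ e l Y' _ _ _ _ =>
    have := tl2_pre hu (k := 0) (s := (x, e)) (by simp) hz
    omega

theorem tl2_cases (x z : Fin 3) (i : Bool) : z = x ∨ z = yy x i ∨ z = yy x (!i) := by
  rcases letter_cases x z with h | h | h
  · exact Or.inl h
  · cases i
    · exact Or.inr (Or.inl h)
    · exact Or.inr (Or.inr h)
  · cases i
    · exact Or.inr (Or.inr h)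
    · exact Or.inr (Or.inl h)

theorem tl2_last_mem {A a : List (Fin 3 × ℤ)} (ha : a <:+ A) (hne : a ≠ []) {s : Fin 3 × ℤ}
    (hs : s ∈ A.getLast?) : s ∈ a := by
  obtain ⟨r, rfl⟩ := ha
  rw [List.getLast?_append_of_ne_nil _ hne] at hs
  exact List.mem_of_mem_getLast? hs

theorem tl2_join {κ : ℕ} {x : Fin 3} {lg : Bool → Prop} (hlg : lg false ∨ lg true) {j : Bool}
    {m γ Y' : List (Fin 3 × ℤ)} (hm : m = [] ∨ ∃ e : ℤ, m = [(x, e)])
    (hγ : Blk κ x (yy x j) γ) (hT : Tail κ x lg j Y') {z : Fin 3}
    (IH : ∀ u, u <:+: Y' → (∀ s ∈ u, s.1 ≠ z) → tl2_NG κ u) :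
    ∀ u, u <:+: (m ++ γ) ++ Y' → (∀ s ∈ u, s.1 ≠ z) → tl2_NG κ u := by
  intro u hu hz
  rw [List.infix_append_iff_ne_nil] at hu
  rcases hu with hu | hu | ⟨a, p, ha, hp, rfl, hsa, hpp⟩
  · rcases hm with rfl | ⟨e, rfl⟩
    · exact ⟨[], u, [], by simp, by simp, hγ.1.sub hu⟩
    · rw [List.cons_append, List.nil_append, List.infix_cons_iff] at hu
      rcases hu with hu | hu
      · rw [List.prefix_cons_iff] at hu
        rcases hu with rfl | ⟨u', rfl, hu'⟩
        · exact ⟨[], [], [], rfl, by simp, tl2_geo_nil κ⟩
        · exact ⟨[(x, e)], u', [], by simp, by simp, hγ.1.sub hu'.isInfix⟩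
      · exact ⟨[], u, [], by simp, by simp, hγ.1.sub hu⟩
  · exact IH u hu hz
  · obtain ⟨s, hs, hsy⟩ := hγ.2.2.2
    have hγne : γ ≠ [] := by
      rintro rfl
      simp at hs
    have hsa' : s ∈ a := tl2_last_mem hsa ha (by
      rw [List.getLast?_append_of_ne_nil _ hγne]
      exact hs)
    have hzj : z ≠ yy x j := fun h => hz s (List.mem_append_left _ hsa') (hsy.trans h.symm)
    have hpl : p.length ≤ 2 := by
      rcases tl2_cases x z j with h | h | h
      · exact tl2_p2 hlg hT hpp (fun t ht => by
          rw [← h]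
          exact hz t (List.mem_append_right _ ht))
      · exact absurd h hzj
      · have := tl2_p1 hT hpp (fun t ht => by
          rw [← h]
          exact hz t (List.mem_append_right _ ht))
        omega
    rcases hm with rfl | ⟨e, rfl⟩
    · exact ⟨[], a, p, by simp, by simpa using by omega, hγ.1.sub hsa.isInfix⟩
    · rw [List.cons_append, List.nil_append, List.suffix_cons_iff] at hsa
      rcases hsa with rfl | hsa
      · exact ⟨[(x, e)], γ, p, by simp, by simpa using by omega, hγ.1⟩
      · exact ⟨[], a, p, by simp, by simpa using by omega, hγ.1.sub hsa.isInfix⟩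

theorem tl2_tail {κ : ℕ} {x : Fin 3} {lg : Bool → Prop} (hlg : lg false ∨ lg true) {i : Bool}
    {Y : List (Fin 3 × ℤ)} (hT : Tail κ x lg i Y) {z : Fin 3} :
    ∀ u, u <:+: Y → (∀ s ∈ u, s.1 ≠ z) → tl2_NG κ u := by
  induction hT with
  | nil i =>
    intro u hu _
    have := hu.length_le
    have : u = [] := by
      rw [← List.length_eq_zero_iff]
      simpa using this
    subst this
    exact ⟨[], [], [], rfl, by simp, tl2_geo_nil κ⟩
  | pow i e _ =>
    intro u hu _
    have := hu.length_le
    exact ⟨u, [], [], by simp, by simp at this ⊢; omega, tl2_geo_nil κ⟩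
  | blk i l Y' hb hl hT' ih =>
    intro u hu hz
    exact tl2_join (m := []) hlg (Or.inl rfl) hb hT' ih u (by simpa using hu) hz
  | pblk i e l Y' _ hb hl hT' ih =>
    intro u hu hz
    exact tl2_join (m := [(x, e)]) hlg (Or.inr ⟨e, rfl⟩) hb hT' ih u (by simpa using hu) hz

theorem tl2_tail_red {κ : ℕ} {x : Fin 3} {lg : Bool → Prop} {i : Bool} {Y : List (Fin 3 × ℤ)}
    (hT : Tail κ x lg i Y) : Red Y ∧ ∀ s ∈ Y.head?, s.1 ≠ yy x i := by
  induction hT with
  | nil i => exact ⟨red_nil, by simp⟩
  | pow i e he =>
    refine ⟨red_singleton.2 he, ?_⟩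
    intro s hs
    simp only [List.head?_cons, Option.mem_def, Option.some.injEq] at hs
    subst hs
    exact (yy_ne x i).symm
  | blk i l Y' hb hl hT' ih =>
    obtain ⟨s, l', rfl, hs⟩ := tl2_head hb
    refine ⟨red_append.2 ⟨hb.1.red, ih.1, ?_⟩, ?_⟩
    · intro a ha b hb'
      obtain ⟨s', hs', hy'⟩ := hb.2.2.2
      rw [Option.mem_def] at ha hs'
      rw [ha] at hs'
      injection hs' with h
      rw [h, hy']
      exact (ih.2 b hb').symm
    · intro a ha
      simp only [List.cons_append, List.head?_cons, Option.mem_def, Option.some.injEq] at ha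
      subst ha
      rw [hs]
      exact (yy_ne' x i).symm
  | pblk i e l Y' he hb hl hT' ih =>
    obtain ⟨s, l', rfl, hs⟩ := tl2_head hb
    refine ⟨?_, ?_⟩
    · have h1 : Red ([(x, e)] ++ ((s :: l') ++ Y')) := by
        rw [red_append]
        refine ⟨red_singleton.2 he, red_append.2 ⟨hb.1.red, ih.1, ?_⟩, ?_⟩
        · intro a ha b hb'
          obtain ⟨s', hs', hy'⟩ := hb.2.2.2
          rw [Option.mem_def] at ha hs'
          rw [ha] at hs'
          injection hs' with h
          rw [h, hy']
          exact (ih.2 b hb').symm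
        · intro a ha b hb'
          simp only [List.getLast?_singleton, Option.mem_def, Option.some.injEq] at ha
          simp only [List.cons_append, List.head?_cons, Option.mem_def,
            Option.some.injEq] at hb'
          subst ha; subst hb'
          rw [hs]
          exact (yy_ne x (!i)).symm
      exact h1
    · intro a ha
      simp only [List.head?_cons, Option.mem_def, Option.some.injEq] at ha
      subst ha
      exact (yy_ne x i).symm

theorem tl2 : S_TL2 := by
  intro κ x lg hlg i Y hT γ hγ w' hw' hlast m hm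
  obtain ⟨s, γ', rfl, hs⟩ := tl2_head hγ
  have hYr := tl2_tail_red hT
  have hγY : Red ((s :: γ') ++ Y) := by
    rw [red_append]
    refine ⟨hγ.1.red, hYr.1, ?_⟩
    intro a ha b hb'
    obtain ⟨s', hs', hy'⟩ := hγ.2.2.2
    rw [Option.mem_def] at ha hs'
    rw [ha] at hs'
    injection hs' with h
    rw [h, hy']
    exact (hYr.2 b hb').symm
  refine ⟨?_, ?_⟩
  · rcases hm with rfl | ⟨e, he, rfl⟩
    · rw [List.append_nil, List.append_assoc, red_append]
      refine ⟨hw'.red, hγY, ?_⟩
      intro a ha b hb
      simp only [List.cons_append, List.head?_cons, Option.mem_def, Option.some.injEq] at hb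
      subst hb
      rw [hlast a ha, hs]
      exact (yy_ne' x i).symm
    · rw [List.append_assoc, List.append_assoc, red_append]
      refine ⟨hw'.red, red_append.2 ⟨red_singleton.2 he, hγY, ?_⟩, ?_⟩
      · intro a ha b hb
        simp only [List.getLast?_singleton, Option.mem_def, Option.some.injEq] at ha
        simp only [List.cons_append, List.head?_cons, Option.mem_def, Option.some.injEq] at hb
        subst ha; subst hb
        rw [hs]
        exact (yy_ne x i).symm
      · intro a ha b hb
        simp only [List.cons_append, List.nil_append, List.head?_cons, Option.mem_def,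
          Option.some.injEq] at hb
        subst hb
        rw [hlast a ha]
        exact yy_ne x (!i)
  · rintro u hu ⟨z, hz⟩
    have hm' : m = [] ∨ ∃ e : ℤ, m = [(x, e)] := by
      rcases hm with h | ⟨e, -, h⟩
      · exact Or.inl h
      · exact Or.inr ⟨e, h⟩
    have e1 : w' ++ m ++ (s :: γ') ++ Y = w' ++ ((m ++ (s :: γ')) ++ Y) := by
      simp only [List.append_assoc]
    rw [e1, List.infix_append_iff_ne_nil] at hu
    rcases hu with hu | hu | ⟨b, p, hb, hp, rfl, hsb, hpp⟩
    · exact ⟨[], u, [], by simp, by simp, hw'.sub hu⟩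
    · exact tl2_join hlg hm' hγ hT (tl2_tail hlg hT) u hu hz
    · have hwne : w' ≠ [] := by
        rintro rfl
        exact hb (by simpa using hsb)
      have hlast' : ∃ t ∈ w'.getLast?, t ∈ b := by
        refine ⟨w'.getLast hwne, List.getLast?_eq_getLast_of_ne_nil hwne, ?_⟩
        exact tl2_last_mem hsb hb (List.getLast?_eq_getLast_of_ne_nil hwne)
      obtain ⟨t, ht, htb⟩ := hlast'
      have hzj : z ≠ yy x (!i) := fun h =>
        hz t (List.mem_append_left _ htb) ((hlast t ht).trans h.symm)
      have hzp : ∀ t ∈ p, t.1 ≠ z := fun t ht => hz t (List.mem_append_right _ ht)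
      have hpl : p.length ≤ 3 := by
        rcases tl2_cases x z i with h | h | h
        · subst h
          rcases hm' with rfl | ⟨e, rfl⟩
          · rw [List.nil_append] at hpp
            by_cases h2 : 2 ≤ (s :: γ').length
            · have := tl2_p2a hγ h2 hpp hzp
              omega
            · have hγ' : γ' = [] := by
                cases γ' with
                | nil => rfl
                | cons a l => simp at h2
              subst hγ'
              rw [List.cons_append, List.nil_append, List.prefix_cons_iff] at hpp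
              rcases hpp with rfl | ⟨p', rfl, hp'⟩
              · simp
              · have := tl2_p2 hlg hT hp' (fun t ht => hzp t (by simp [ht]))
                simp only [List.length_cons]
                omega
          · have := tl2_pre hpp (k := 0) (s := (z, e)) (by simp) hzp
            omega
        · have h3 : ∀ t ∈ p, t.1 ≠ s.1 := fun t ht => by
            rw [hs, ← h]
            exact hzp t ht
          rcases hm' with rfl | ⟨e, rfl⟩
          · have := tl2_pre hpp (k := 0) (s := s) (by simp) h3
            omega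
          · have := tl2_pre hpp (k := 1) (s := s) (by simp) h3
            omega
        · exact absurd h hzj
      exact ⟨[], b, p, by simp, by simpa using by omega, hw'.sub hsb.isInfix⟩

end TA
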